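import Pool.Agent.TH179.SD.Geo2
import Pool.Agent.H66R2.RZ_Par

set_option autoImplicit false

/-!
# Project SD, task G7d: the Poincaré lemma for 2-forms on `V`
-/

open scoped ContDiff Topology
open Set MeasureTheory

noncomputable section

namespace Pool.Agent.TH886.SD

open Pool.Agent.TH179.SD

/-- the isometry between covectors and 1-forms -/
def sg : (V →L[ℝ] ℝ) ≃ₗᵢ[ℝ] Alt 1 := ContinuousAlternatingMap.ofSubsingletonLIE (𝕜 := ℝ) (E := V) (F := ℝ) (0 : Fin 1)

theorem one_eq (l : V →L[ℝ] ℝ) : one l = sg l := rfl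

theorem sg_apply (l : V →L[ℝ] ℝ) (v : Fin 1 → V) : sg l v = l (v 0) := rfl

/-- a 2-form as a bilinear map -/
def B : Alt 2 →L[ℝ] V →L[ℝ] V →L[ℝ] ℝ :=
  (ContinuousLinearMap.compL ℝ V (Alt 1) (V →L[ℝ] ℝ)
      (sg.symm.toContinuousLinearEquiv : Alt 1 →L[ℝ] (V →L[ℝ] ℝ))).comp
    (ContinuousAlternatingMap.curryLeftLI (𝕜 := ℝ) (E := V) (F := ℝ) (n := 1)).toContinuousLinearMap

theorem B_apply (a : Alt 2) (u v : V) : B a u v = a ![u, v] := by
  have h : sg (B a u) = a.curryLeft u := by
    show sg (sg.symm (a.curryLeft u)) = _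
    exact sg.apply_symm_apply _
  have h2 : sg (B a u) ![v] = a ![u, v] := by
    rw [h, ContinuousAlternatingMap.curryLeft_apply_apply]
  rw [sg_apply] at h2
  simpa using h2

theorem B_antisymm (a : Alt 2) (u v : V) : B a u v = - B a v u := by
  rw [B_apply, B_apply]
  have h := a.map_swap ![v, u] (i := 0) (j := 1) (by decide)
  have h2 : (![v, u] ∘ Equiv.swap (0 : Fin 2) 1) = ![u, v] := by
    ext i : 1
    fin_cases i <;> simp
  rw [h2] at h
  exact h


theorem B_contDiff : ContDiff ℝ ∞ (fun a : Alt 2 => B a) :=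
  ContinuousLinearMap.contDiff (𝕜 := ℝ) (E := Alt 2) (F := V →L[ℝ] V →L[ℝ] ℝ) B

theorem B_hasFDerivAt (a : Alt 2) : HasFDerivAt (fun a : Alt 2 => B a) B a :=
  ContinuousLinearMap.hasFDerivAt (𝕜 := ℝ) (E := Alt 2) (F := V →L[ℝ] V →L[ℝ] ℝ) B

theorem gen_deriv {E F : Type*} [NormedAddCommGroup E] [NormedSpace ℝ E] [NormedAddCommGroup F]
    [NormedSpace ℝ F] (T : E →L[ℝ] F) {f : ℝ → E} {f' : E} {x : ℝ} (h : HasDerivAt f f' x) :
    HasDerivAt (fun z => T (f z)) (T f') x := T.hasFDerivAt.comp_hasDerivAt x h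

theorem gen_fderiv {G E F : Type*} [NormedAddCommGroup G] [NormedSpace ℝ G] [NormedAddCommGroup E]
    [NormedSpace ℝ E] [NormedAddCommGroup F]
    [NormedSpace ℝ F] (T : E →L[ℝ] F) {f : G → E} {f' : G →L[ℝ] E} {x : G}
    (h : HasFDerivAt f f' x) (u : G) :
    DifferentiableAt ℝ (fun z => T (f z)) x ∧ fderiv ℝ (fun z => T (f z)) x u = T (f' u) := by
  have h1 : HasFDerivAt (fun z => T (f z)) (T.comp f') x := T.hasFDerivAt.comp x h
  exact ⟨h1.differentiableAt, by rw [h1.fderiv]; rfl⟩

theorem B_comp_deriv {f : ℝ → Alt 2} {f' : Alt 2} {x : ℝ} (h : HasDerivAt f f' x) :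
    HasDerivAt (fun z => B (f z)) (B f') x :=
  gen_deriv (E := Alt 2) (F := V →L[ℝ] V →L[ℝ] ℝ) B h

theorem B_comp_fderiv {f : V → Alt 2} {f' : V →L[ℝ] Alt 2} {x : V} (h : HasFDerivAt f f' x) (u : V) :
    DifferentiableAt ℝ (fun z => B (f z)) x ∧ fderiv ℝ (fun z => B (f z)) x u = B (f' u) :=
  gen_fderiv (E := Alt 2) (F := V →L[ℝ] V →L[ℝ] ℝ) B h u

/-- the integrand of the primitive -/
def Rm (w : V → Alt 2) (p : V × ℝ) : V →L[ℝ] ℝ := p.2 • (B (w (p.2 • p.1)) p.1)

theorem Rm_smooth {w : V → Alt 2} (hw : ContDiff ℝ ∞ w) : ContDiff ℝ ∞ (Rm w) := by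
  have h1 : ContDiff ℝ ∞ (fun p : V × ℝ => p.2 • p.1) := contDiff_snd.smul contDiff_fst
  have h2 : ContDiff ℝ ∞ (fun p : V × ℝ => B (w (p.2 • p.1))) := B_contDiff.comp (hw.comp h1)
  exact contDiff_snd.smul (h2.clm_apply contDiff_fst)

/-- the covector of the primitive -/
def lm (w : V → Alt 2) (q : V) : V →L[ℝ] ℝ := ∫ s in (0:ℝ)..1, Rm w (q, s)

theorem lm_smooth {w : V → Alt 2} (hw : ContDiff ℝ ∞ w) : ContDiff ℝ ∞ (lm w) :=
  Pool.Agent.H66R2.RZPar.contDiff_int 0 1 V (V →L[ℝ] ℝ) (Rm w) (Rm_smooth hw)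

theorem lm_apply {w : V → Alt 2} (hw : ContDiff ℝ ∞ w) (q u : V) :
    lm w q u = ∫ s in (0:ℝ)..1, Rm w (q, s) u := by
  unfold lm
  rw [ContinuousLinearMap.intervalIntegral_apply]
  exact ((Rm_smooth hw).continuous.comp (Continuous.prodMk_right q)).intervalIntegrable _ _

/-- the derivative of the integrand -/
def Rd (w : V → Alt 2) (q u v : V) (p : ℝ × ℝ) : ℝ :=
  p.2 ^ 2 * B (fderiv ℝ w (p.2 • (q + p.1 • v)) v) (q + p.1 • v) u +
    p.2 * B (w (p.2 • (q + p.1 • v))) v u

theorem Rm_hasDerivAt {w : V → Alt 2} (hw : ContDiff ℝ ∞ w) (q u v : V) (e s : ℝ) :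
    HasDerivAt (fun z => Rm w (q + z • v, s) u) (Rd w q u v (e, s)) e := by
  have hq : HasDerivAt (fun z : ℝ => q + z • v) v e := by
    have := ((hasDerivAt_id e).smul_const v).const_add q
    simpa using this
  have hsq : HasDerivAt (fun z : ℝ => s • (q + z • v)) (s • v) e := hq.const_smul s
  have hwd : HasFDerivAt w (fderiv ℝ w (s • (q + e • v))) (s • (q + e • v)) :=
    (hw.differentiable (by simp) _).hasFDerivAt
  have h1 : HasDerivAt (fun z : ℝ => w (s • (q + z • v))) (fderiv ℝ w (s • (q + e • v)) (s • v)) e :=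
    hwd.comp_hasDerivAt e hsq
  have h2 : HasDerivAt (fun z : ℝ => B (w (s • (q + z • v))))
      (B (fderiv ℝ w (s • (q + e • v)) (s • v))) e := B_comp_deriv h1
  have h3 := h2.clm_apply hq
  have h4 := h3.clm_apply (hasDerivAt_const e u)
  have h5 := h4.const_mul s
  refine HasDerivAt.congr_deriv ?_ (f' := s * ((B (fderiv ℝ w (s • (q + e • v)) (s • v)) (q + e • v) +
    B (w (s • (q + e • v))) v) u + B (w (s • (q + e • v))) (q + e • v) 0)) ?_
  · exact h5
  · unfold Rd
    simp only [map_smul, map_zero, add_zero, ContinuousLinearMap.add_apply,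
      ContinuousLinearMap.smul_apply, smul_eq_mul]
    ring

theorem Rd_cont {w : V → Alt 2} (hw : ContDiff ℝ ∞ w) (q u v : V) : Continuous (Rd w q u v) := by
  have h0 : Continuous (fun p : ℝ × ℝ => q + p.1 • v) := by fun_prop
  have h1 : Continuous (fun p : ℝ × ℝ => p.2 • (q + p.1 • v)) := by fun_prop
  have h2 : Continuous (fun p : ℝ × ℝ => fderiv ℝ w (p.2 • (q + p.1 • v)) v) :=
    ((hw.continuous_fderiv (by simp)).comp h1).clm_apply continuous_const
  have h3 : Continuous (fun p : ℝ × ℝ => B (fderiv ℝ w (p.2 • (q + p.1 • v)) v) (q + p.1 • v) u) :=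
    ((B.continuous.comp h2).clm_apply h0).clm_apply continuous_const
  have h4 : Continuous (fun p : ℝ × ℝ => B (w (p.2 • (q + p.1 • v))) v u) :=
    ((B.continuous.comp (hw.continuous.comp h1)).clm_apply continuous_const).clm_apply
      continuous_const
  exact ((continuous_snd.pow 2).mul h3).add (continuous_snd.mul h4)

theorem lm_fderiv {w : V → Alt 2} (hw : ContDiff ℝ ∞ w) (q u v : V) :
    fderiv ℝ (fun y => lm w y u) q v = ∫ s in (0:ℝ)..1,
      (s ^ 2 * B (fderiv ℝ w (s • q) v) q u + s * B (w (s • q)) v u) := by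
  have hd : DifferentiableAt ℝ (fun y => lm w y u) q := by
    have : ContDiff ℝ ∞ (fun y => lm w y u) := (lm_smooth hw).clm_apply contDiff_const
    exact this.differentiable (by simp) q
  have hq : HasDerivAt (fun z : ℝ => q + z • v) v 0 := by
    have := ((hasDerivAt_id (0:ℝ)).smul_const v).const_add q
    simpa using this
  have h1 : HasDerivAt (fun z : ℝ => lm w (q + z • v) u) (fderiv ℝ (fun y => lm w y u) q v) 0 := by
    have h := hd.hasFDerivAt
    have h' : HasFDerivAt (fun y => lm w y u) (fderiv ℝ (fun y => lm w y u) q)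
        (q + (0:ℝ) • v) := by simpa using h
    exact h'.comp_hasDerivAt (0:ℝ) hq
  have h2 : HasDerivAt (fun z : ℝ => ∫ t in (0:ℝ)..1, Rm w (q + z • v, t) u)
      (∫ t in (0:ℝ)..1, Rd w q u v (0, t)) 0 := by
    refine Pool.Agent.H66R2.RZPar.hasDerivAt_int 0 1
      (fun p : ℝ × ℝ => Rm w (q + p.1 • v, p.2) u) (Rd w q u v) ?_ (Rd_cont hw q u v) ?_ 0
    · have h0 : Continuous (fun p : ℝ × ℝ => (q + p.1 • v, p.2)) := by fun_prop
      exact ((Rm_smooth hw).continuous.comp h0).clm_apply continuous_const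
    · intro x t
      exact Rm_hasDerivAt hw q u v x t
  have e : (fun z : ℝ => lm w (q + z • v) u) = fun z : ℝ => ∫ t in (0:ℝ)..1, Rm w (q + z • v, t) u := by
    funext z
    exact lm_apply hw _ _
  rw [e] at h1
  rw [h1.unique h2]
  refine intervalIntegral.integral_congr fun s _ => ?_
  simp [Rd]

theorem ext2 (a b : Alt 2) (h : ∀ u v, B a u v = B b u v) : a = b := by
  ext x
  have hx : x = ![x 0, x 1] := by
    ext i : 1
    fin_cases i <;> rfl
  rw [hx, ← B_apply, ← B_apply, h]

theorem extDeriv_sg {l : V → V →L[ℝ] ℝ} (hl : ContDiff ℝ ∞ l) (q u v : V) :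
    (extDeriv (fun y => sg (l y)) q : Alt 2) ![u, v] =
      fderiv ℝ (fun y => l y v) q u - fderiv ℝ (fun y => l y u) q v := by
  have hd : DifferentiableAt ℝ (fun y => sg (l y)) q := by
    have : ContDiff ℝ ∞ (fun y => sg (l y)) := sg.contDiff.comp hl
    exact this.differentiable (by simp) q
  have h := extDeriv_apply hd ![u, v]
  refine h.trans ?_
  rw [Fin.sum_univ_two]
  simp only [Fin.val_zero, pow_zero, one_smul, Fin.val_one, pow_one, neg_smul]
  have e0 : (fun y => (sg (l y)) ((0 : Fin 2).removeNth ![u, v])) = fun y => l y v := by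
    funext y; rfl
  have e1 : (fun y => (sg (l y)) ((1 : Fin 2).removeNth ![u, v])) = fun y => l y u := by
    funext y; rfl
  rw [e0, e1]
  rfl

theorem closed3 {w : V → Alt 2} (hw : ContDiff ℝ ∞ w) (x : V) (h : extDeriv w x = 0) (u v z : V) :
    B (fderiv ℝ w x u) v z - B (fderiv ℝ w x v) u z + B (fderiv ℝ w x z) u v = 0 := by
  have hd : DifferentiableAt ℝ w x := hw.differentiable (by simp) x
  have h1 := extDeriv_apply hd ![u, v, z]
  rw [h] at h1
  rw [Fin.sum_univ_three] at h1
  have key : ∀ (x0 : V) (a b c : V), fderiv ℝ (fun y => w y ![a, b]) x0 c =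
      B (fderiv ℝ w x0 c) a b := by
    intro x0 a b c
    have hd0 : HasFDerivAt w (fderiv ℝ w x0) x0 := (hw.differentiable (by simp) x0).hasFDerivAt
    have e : (fun y => w y ![a, b]) = fun y => B (w y) a b := by
      funext y; exact (B_apply _ _ _).symm
    rw [e]
    obtain ⟨h1, h1'⟩ := B_comp_fderiv hd0 c
    have h2 := (h1.hasFDerivAt.clm_apply (hasFDerivAt_const a x0)).clm_apply (hasFDerivAt_const b x0)
    rw [h2.fderiv]
    simp [h1']
  have e0 : (fun y => w y ((0 : Fin 3).removeNth ![u, v, z])) = fun y => w y ![v, z] := by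
    funext y; rfl
  have e1 : (fun y => w y ((1 : Fin 3).removeNth ![u, v, z])) = fun y => w y ![u, z] := by
    funext y; congr 1; ext i : 1; fin_cases i <;> rfl
  have e2 : (fun y => w y ((2 : Fin 3).removeNth ![u, v, z])) = fun y => w y ![u, v] := by
    funext y; congr 1; ext i : 1; fin_cases i <;> rfl
  rw [e0, e1, e2] at h1
  simp only [key] at h1
  simp at h1
  linarith

theorem taskP2 : TaskP2 := by
  intro w hw hcl
  refine ⟨fun y => sg (lm w y), sg.contDiff.comp (lm_smooth hw), fun q => ?_⟩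
  refine ext2 _ _ fun u v => ?_
  rw [B_apply, extDeriv_sg (lm_smooth hw), lm_fderiv hw, lm_fderiv hw, ← intervalIntegral.integral_sub]
  · have hder : ∀ s ∈ uIcc (0:ℝ) 1, HasDerivAt (fun s : ℝ => s ^ 2 * B (w (s • q)) u v)
        ((s ^ 2 * B (fderiv ℝ w (s • q) u) q v + s * B (w (s • q)) u v) -
          (s ^ 2 * B (fderiv ℝ w (s • q) v) q u + s * B (w (s • q)) v u)) s := by
      intro s _
      have hsq : HasDerivAt (fun z : ℝ => z • q) q s := by
        have := (hasDerivAt_id s).smul_const q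
        simpa using this
      have hwd : HasFDerivAt w (fderiv ℝ w (s • q)) (s • q) :=
        (hw.differentiable (by simp) _).hasFDerivAt
      have h1 : HasDerivAt (fun z : ℝ => w (z • q)) (fderiv ℝ w (s • q) q) s :=
        hwd.comp_hasDerivAt s hsq
      have h2 : HasDerivAt (fun z : ℝ => B (w (z • q))) (B (fderiv ℝ w (s • q) q)) s :=
        B_comp_deriv h1
      have h3 := (h2.clm_apply (hasDerivAt_const s u)).clm_apply (hasDerivAt_const s v)
      have h4 := (hasDerivAt_pow 2 s).mul h3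
      refine h4.congr_deriv ?_
      have hc := closed3 hw (s • q) (hcl _) u v q
      have ha := B_antisymm (fderiv ℝ w (s • q) u) q v
      have hb := B_antisymm (fderiv ℝ w (s • q) v) q u
      have hs := B_antisymm (w (s • q)) v u
      rw [ha, hb, hs]
      simp
      linear_combination (s ^ 2) * hc
    rw [intervalIntegral.integral_eq_sub_of_hasDerivAt hder]
    · simp
    · refine Continuous.intervalIntegrable ?_ _ _
      have h1 : Continuous (fun s : ℝ => s • q) := by fun_prop
      have hA : ∀ a b c : V, Continuous (fun s : ℝ => B (fderiv ℝ w (s • q) a) b c) := fun a b c =>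
        ((B.continuous.comp (((hw.continuous_fderiv (by simp)).comp h1).clm_apply
          continuous_const)).clm_apply continuous_const).clm_apply continuous_const
      have hB : ∀ b c : V, Continuous (fun s : ℝ => B (w (s • q)) b c) := fun b c =>
        ((B.continuous.comp (hw.continuous.comp h1)).clm_apply continuous_const).clm_apply
          continuous_const
      exact (((continuous_pow 2).mul (hA u q v)).add (continuous_id.mul (hB u v))).sub
        (((continuous_pow 2).mul (hA v q u)).add (continuous_id.mul (hB v u)))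
  all_goals
    refine Continuous.intervalIntegrable ?_ _ _
    have h1 : Continuous (fun s : ℝ => s • q) := by fun_prop
    have hA : ∀ a b c : V, Continuous (fun s : ℝ => B (fderiv ℝ w (s • q) a) b c) := fun a b c =>
      ((B.continuous.comp (((hw.continuous_fderiv (by simp)).comp h1).clm_apply
        continuous_const)).clm_apply continuous_const).clm_apply continuous_const
    have hB : ∀ b c : V, Continuous (fun s : ℝ => B (w (s • q)) b c) := fun b c =>
      ((B.continuous.comp (hw.continuous.comp h1)).clm_apply continuous_const).clm_apply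
        continuous_const
    exact ((continuous_pow 2).mul (hA _ _ _)).add (continuous_id.mul (hB _ _))

end Pool.Agent.TH886.SD
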